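import Pool.Agent.Run7.h538.TP.Stm

/-!
# Project TP (MP_34deb4_co Q2), piece INV (helper600)
-/

set_option autoImplicit false

open Finset Matrix

namespace Run7.h600.TP

open Run7.h538.TP

theorem flip_mulVec {V : Type} [Fintype V] [DecidableEq V] (B : Matrix V V ℝ) (x y : V)
    (hxy : x ≠ y) (w : V → ℝ) (i : V) :
    (Run7.h538.TP.flip B x y *ᵥ w) i = (B *ᵥ w) i + (if i = x then -2 * B x y * w y else 0) +
      (if i = y then -2 * B y x * w x else 0) := by
  simp only [Matrix.mulVec, dotProduct]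
  have h : ∀ j, Run7.h538.TP.flip B x y i j * w j = B i j * w j +
      (if i = x then (if j = y then -2 * B x y * w y else 0) else 0) +
      (if i = y then (if j = x then -2 * B y x * w x else 0) else 0) := by
    intro j
    simp only [Run7.h538.TP.flip, Matrix.of_apply]
    by_cases h1 : i = x
    · subst h1
      by_cases h2 : j = y
      · subst h2
        simp [hxy]
        ring
      · simp [h2, hxy]
    · by_cases h3 : i = y
      · subst h3
        by_cases h4 : j = x
        · subst h4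
          simp [h1]
          ring
        · simp [h1, h4]
      · simp [h1, h3]
  rw [Finset.sum_congr rfl fun j _ => h j, Finset.sum_add_distrib, Finset.sum_add_distrib]
  congr 1
  · congr 1
    split_ifs <;> simp
  · split_ifs <;> simp

theorem flip_symm {V : Type} [DecidableEq V] (B : Matrix V V ℝ) (x y : V) (hB : B.IsSymm) :
    (Run7.h538.TP.flip B x y).IsSymm := by
  refine Matrix.IsSymm.ext fun i j => ?_
  simp only [Run7.h538.TP.flip, Matrix.of_apply]
  have h1 : B j i = B i j := hB.apply i j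
  by_cases h : (i = x ∧ j = y) ∨ (i = y ∧ j = x)
  · have h' : (j = x ∧ i = y) ∨ (j = y ∧ i = x) := by tauto
    rw [if_pos h, if_pos h', h1]
  · have h' : ¬ ((j = x ∧ i = y) ∨ (j = y ∧ i = x)) := by tauto
    rw [if_neg h, if_neg h', h1]

theorem flip_ne {V : Type} [DecidableEq V] (B : Matrix V V ℝ) (x y i j : V) :
    Run7.h538.TP.flip B x y i j ≠ 0 ↔ B i j ≠ 0 := by
  simp only [Run7.h538.TP.flip, Matrix.of_apply]
  split_ifs
  · exact neg_ne_zero
  · exact Iff.rfl

theorem flip_inS {V : Type} [DecidableEq V] (G : SimpleGraph V) (B : Matrix V V ℝ) (x y : V)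
    (hB : InS G B) : InS G (Run7.h538.TP.flip B x y) := by
  refine ⟨flip_symm B x y hB.1, fun i j hij => ?_⟩
  rw [flip_ne]
  exact hB.2 i j hij

theorem dot_flip {V : Type} [Fintype V] [DecidableEq V] (B : Matrix V V ℝ) (x y : V)
    (hxy : x ≠ y) (hB : B.IsSymm) (μ : ℝ) (v w : V → ℝ) (hv : Run7.h538.TP.flip B x y *ᵥ v = μ • v)
    (hw : B *ᵥ w = μ • w) : B x y * (w y * v x + w x * v y) = 0 := by
  have hs := flip_symm B x y hB
  have h1 : v ⬝ᵥ (Run7.h538.TP.flip B x y *ᵥ w) = μ * (v ⬝ᵥ w) := by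
    rw [Matrix.dotProduct_mulVec, ← Matrix.mulVec_transpose, hs.eq, hv, smul_dotProduct,
      smul_eq_mul]
  have h2 : v ⬝ᵥ (B *ᵥ w) = μ * (v ⬝ᵥ w) := by
    rw [hw, dotProduct_smul, smul_eq_mul]
  have h3 : v ⬝ᵥ (Run7.h538.TP.flip B x y *ᵥ w) = v ⬝ᵥ (B *ᵥ w) + v x * (-2 * B x y * w y) +
      v y * (-2 * B y x * w x) := by
    simp only [dotProduct]
    have h4 : ∀ i, v i * (Run7.h538.TP.flip B x y *ᵥ w) i = v i * (B *ᵥ w) i +
        (if i = x then v i * (-2 * B x y * w y) else 0) +
        (if i = y then v i * (-2 * B y x * w x) else 0) := by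
      intro i
      rw [flip_mulVec B x y hxy w i, mul_add, mul_add]
      congr 1
      · congr 1
        split_ifs <;> simp
      · split_ifs <;> simp
    rw [Finset.sum_congr rfl fun i _ => h4 i, Finset.sum_add_distrib, Finset.sum_add_distrib]
    simp only [Finset.sum_ite_eq', Finset.mem_univ, if_true]
  have h5 : B y x = B x y := hB.apply x y
  rw [h1, h2, h5] at h3
  linarith

theorem tadpole_adj01 (m n : ℕ) (hm : 3 ≤ m) :
    (tadpole m n).Adj (.inl ⟨0, by omega⟩) (.inl ⟨1, by omega⟩) := by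
  unfold tadpole
  rw [SimpleGraph.fromRel_adj]
  refine ⟨?_, Or.inl ?_⟩
  · intro h
    have h1 := Sum.inl_injective h
    have h2 := congrArg Fin.val h1
    simp at h2
  · show (0 + 1) % m = 1
    exact Nat.mod_eq_of_lt (by omega)

theorem t_INV (hPROP : S_PROP) : S_INV := by
  intro m n hm B μ v hB hD hv
  obtain ⟨u, u', hli, hu, hu'⟩ := hD
  set x : Fin m ⊕ Fin n := .inl ⟨0, by omega⟩ with hx
  set y : Fin m ⊕ Fin n := .inl ⟨1, by omega⟩ with hy
  have hadj : (tadpole m n).Adj x y := tadpole_adj01 m n hm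
  have hxy : x ≠ y := hadj.ne
  have hBxy : B x y ≠ 0 := (hB.2 x y hxy).mpr hadj
  have hlin : ∀ s t : ℝ, s • u + t • u' = 0 → s = 0 ∧ t = 0 :=
    LinearIndependent.pair_iff.mp hli
  have hcomb : ∀ s t : ℝ, s * u x + t * u' x = 0 → s * u y + t * u' y = 0 → s = 0 ∧ t = 0 := by
    intro s t h1 h2
    refine hlin s t ?_
    refine hPROP m n hm B μ (s • u + t • u') hB ?_ ?_ ?_
    · rw [Matrix.mulVec_add, Matrix.mulVec_smul, Matrix.mulVec_smul, hu, hu', smul_add,
        smul_comm s μ u, smul_comm t μ u']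
    · simpa using h1
    · simpa using h2
  have hΔ : u x * u' y - u y * u' x ≠ 0 := by
    intro h0
    have h1 := hcomb (u' y) (- u y) (by linarith) (by ring)
    have h2 := hcomb (u' x) (- u x) (by ring) (by linarith)
    have h3 := hcomb 1 0 (by have := h2.2; linarith) (by have := h1.2; linarith)
    exact one_ne_zero h3.1
  have e1 : u y * v x + u x * v y = 0 :=
    (mul_eq_zero.mp (dot_flip B x y hxy hB.1 μ v u hv hu)).resolve_left hBxy
  have e2 : u' y * v x + u' x * v y = 0 :=
    (mul_eq_zero.mp (dot_flip B x y hxy hB.1 μ v u' hv hu')).resolve_left hBxy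
  have hvx : v x = 0 := by
    have : (u x * u' y - u y * u' x) * v x = 0 := by linear_combination u x * e2 - u' x * e1
    exact (mul_eq_zero.mp this).resolve_left hΔ
  have hvy : v y = 0 := by
    have : (u x * u' y - u y * u' x) * v y = 0 := by linear_combination u' y * e1 - u y * e2
    exact (mul_eq_zero.mp this).resolve_left hΔ
  exact hPROP m n hm (Run7.h538.TP.flip B x y) μ v (flip_inS _ B x y hB) hv hvx hvy

end Run7.h600.TP
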